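import Pool.Agent.Lib.MP_3ee548_nt.RS.Iface

/-! APPR: the dual sum against the weighted sum of square roots. -/

set_option autoImplicit false

namespace Pool.Agent.Lib.MP_3ee548_nt.RS.H32

open Pool.Agent.Lib.MP_3ee548_nt.RS

theorem norm_e (x : ℝ) : ‖e x‖ = 1 := by
  unfold e
  exact Complex.norm_exp_ofReal_mul_I _

theorem e_sub_le (x y : ℝ) : ‖e x - e y‖ ≤ 2 * Real.pi * |x - y| := by
  have h1 : e x - e y = e y * (Complex.exp (((2 * Real.pi * (x - y) : ℝ) : ℂ) * Complex.I) - 1) := by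
    unfold e
    rw [mul_sub, mul_one, ← Complex.exp_add]
    congr 2
    push_cast
    ring
  rw [h1, norm_mul, norm_e, one_mul]
  have h2 := Real.norm_exp_I_mul_ofReal_sub_one_le (x := 2 * Real.pi * (x - y))
  have h3 : ‖(2 * Real.pi * (x - y) : ℝ)‖ = 2 * Real.pi * |x - y| := by
    rw [Real.norm_eq_abs, abs_mul, abs_of_pos (by positivity)]
  rw [h3] at h2
  rw [mul_comm (((2 * Real.pi * (x - y) : ℝ) : ℂ)) Complex.I]
  exact h2

theorem sq_half_le_exp {x : ℝ} (hx : 0 ≤ x) : x ^ 2 / 2 ≤ Real.exp x := by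
  have := Real.quadratic_le_exp_of_nonneg hx
  linarith

/-- `|exp (-a) - exp (-b)| ≤ |a - b| exp (-min a b)`. -/
theorem exp_sub_le (a b c : ℝ) (ha : c ≤ a) (hb : c ≤ b) :
    |Real.exp (-a) - Real.exp (-b)| ≤ |a - b| * Real.exp (-c) := by
  wlog h : a ≤ b generalizing a b
  · have := this b a hb ha (le_of_not_ge h)
    rw [abs_sub_comm, abs_sub_comm a b]; exact this
  have h1 : Real.exp (-b) = Real.exp (-a) * Real.exp (-(b - a)) := by
    rw [← Real.exp_add]; ring_nf
  have h2 : 1 - (b - a) ≤ Real.exp (-(b - a)) := by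
    have := Real.add_one_le_exp (-(b - a)); linarith
  have h3 : Real.exp (-(b - a)) ≤ 1 := Real.exp_le_one_iff.2 (by linarith)
  have h4 : Real.exp (-a) ≤ Real.exp (-c) := Real.exp_le_exp.2 (by linarith)
  have h5 : 0 < Real.exp (-a) := Real.exp_pos _
  rw [h1]
  have e1 : Real.exp (-a) - Real.exp (-a) * Real.exp (-(b - a))
      = Real.exp (-a) * (1 - Real.exp (-(b - a))) := by ring
  rw [e1, abs_mul, abs_of_pos h5, abs_of_nonneg (by linarith), abs_of_nonpos (by linarith)]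
  calc Real.exp (-a) * (1 - Real.exp (-(b - a))) ≤ Real.exp (-a) * (b - a) :=
        mul_le_mul_of_nonneg_left (by linarith) h5.le
    _ ≤ Real.exp (-c) * (b - a) := mul_le_mul_of_nonneg_right h4 (by linarith)
    _ = -(a - b) * Real.exp (-c) := by ring

/-- the difference of `h0` at near points. -/
theorem h0_sub (z z0 : ℝ) (h0p : 0 < z0) (h1 : z0 ≤ z) (h2 : z ≤ 9 / 8 * z0) :
    |h0 z - h0 z0| ≤ 5 * (z - z0) := by
  have hz : 0 < z := lt_of_lt_of_le h0p h1
  have hpi := Real.pi_gt_three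
  have hpi4 := Real.pi_lt_d2
  unfold h0
  have hc1 : Real.pi * (z0 + 1 / z) ≤ Real.pi * (z + 1 / z) := by
    apply mul_le_mul_of_nonneg_left _ Real.pi_pos.le; linarith
  have hc2 : Real.pi * (z0 + 1 / z) ≤ Real.pi * (z0 + 1 / z0) := by
    apply mul_le_mul_of_nonneg_left _ Real.pi_pos.le
    have := one_div_le_one_div_of_le h0p h1
    linarith
  have hmain := exp_sub_le _ _ _ hc1 hc2
  rw [← neg_mul, ← neg_mul] at hmain
  refine hmain.trans ?_
  -- bound of |a - b|
  have e1 : Real.pi * (z + 1 / z) - Real.pi * (z0 + 1 / z0)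
      = Real.pi * ((z - z0) * (1 - 1 / (z * z0))) := by
    field_simp
    ring
  have e2 : |Real.pi * (z + 1 / z) - Real.pi * (z0 + 1 / z0)|
      ≤ Real.pi * ((z - z0) * (1 + 1 / z0 ^ 2)) := by
    rw [e1, abs_mul, abs_of_pos Real.pi_pos, abs_mul, abs_of_nonneg (sub_nonneg.2 h1)]
    apply mul_le_mul_of_nonneg_left _ Real.pi_pos.le
    apply mul_le_mul_of_nonneg_left _ (sub_nonneg.2 h1)
    have h3 : 1 / (z * z0) ≤ 1 / z0 ^ 2 := by
      apply one_div_le_one_div_of_le (by positivity)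
      nlinarith
    have h4 : 0 < 1 / (z * z0) := by positivity
    rw [abs_le]
    constructor <;> linarith
  have e3 : Real.exp (-(Real.pi * (z0 + 1 / z))) ≤ Real.exp (-(2 / z0)) := by
    apply Real.exp_le_exp.2
    have h5 : 8 / (9 * z0) ≤ 1 / z := by
      rw [div_le_div_iff₀ (by positivity) hz]
      nlinarith
    have h6 : 2 / z0 ≤ Real.pi * (8 / (9 * z0)) := by
      have : Real.pi * (8 / (9 * z0)) = (Real.pi * 8 / 9) / z0 := by field_simp
      rw [this]
      apply div_le_div_of_nonneg_right _ h0p.le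
      linarith
    have h7 : Real.pi * (8 / (9 * z0)) ≤ Real.pi * (1 / z) :=
      mul_le_mul_of_nonneg_left h5 Real.pi_pos.le
    have h8 : 0 < Real.pi * z0 := by positivity
    nlinarith
  have e4 : Real.exp (-(2 / z0)) ≤ 1 := Real.exp_le_one_iff.2 (by
    have : 0 < 2 / z0 := by positivity
    linarith)
  have e5 : 1 / z0 ^ 2 * Real.exp (-(2 / z0)) ≤ 1 / 2 := by
    have h9 := sq_half_le_exp (x := 2 / z0) (by positivity)
    have h10 : (2 / z0) ^ 2 / 2 = 2 * (1 / z0 ^ 2) := by field_simp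
    rw [h10] at h9
    have h11 : Real.exp (2 / z0) * Real.exp (-(2 / z0)) = 1 := by
      rw [← Real.exp_add]; simp
    have h12 : 2 * (1 / z0 ^ 2) * Real.exp (-(2 / z0)) ≤ Real.exp (2 / z0) * Real.exp (-(2 / z0)) :=
      mul_le_mul_of_nonneg_right h9 (Real.exp_pos _).le
    rw [h11] at h12
    linarith
  calc |Real.pi * (z + 1 / z) - Real.pi * (z0 + 1 / z0)| * Real.exp (-(Real.pi * (z0 + 1 / z)))
      ≤ Real.pi * ((z - z0) * (1 + 1 / z0 ^ 2)) * Real.exp (-(2 / z0)) := by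
        apply mul_le_mul e2 e3 (Real.exp_pos _).le
        have := sub_nonneg.2 h1
        positivity
    _ = Real.pi * (z - z0) * (Real.exp (-(2 / z0)) + 1 / z0 ^ 2 * Real.exp (-(2 / z0))) := by ring
    _ ≤ Real.pi * (z - z0) * (1 + 1 / 2) := by
        apply mul_le_mul_of_nonneg_left _ (mul_nonneg Real.pi_pos.le (sub_nonneg.2 h1))
        linarith
    _ ≤ 5 * (z - z0) := by
        have := sub_nonneg.2 h1
        nlinarith

/-- decay of `h0`. -/
theorem h0_decay (z : ℝ) (hz : 0 < z) :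
    h0 z * (1 + z ^ 2) ^ 2 ≤ z ^ 2 ∧ h0 z * (1 + z ^ 2) ^ 2 ≤ 3 := by
  have hpi := Real.pi_gt_three
  have e0 : h0 z = Real.exp (-(Real.pi * z)) * Real.exp (-(Real.pi / z)) := by
    unfold h0
    rw [← Real.exp_add]
    congr 1
    ring
  have h1 : (1 + z ^ 2) ^ 2 ≤ 3 * Real.exp (Real.pi * z) := by
    have h2 : 1 ≤ Real.exp (Real.pi * z) := Real.one_le_exp (by positivity)
    have h3 : (3 * z) ^ 4 / 24 ≤ Real.exp (Real.pi * z) := by
      have h4 := Real.pow_div_factorial_le_exp (x := 3 * z) (by positivity) 4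
      have h5 : Real.exp (3 * z) ≤ Real.exp (Real.pi * z) := Real.exp_le_exp.2 (by nlinarith)
      have h6 : ((Nat.factorial 4 : ℕ) : ℝ) = 24 := by norm_num [Nat.factorial]
      rw [h6] at h4
      linarith
    nlinarith [sq_nonneg (z ^ 2 - 1)]
  have h7 : Real.exp (Real.pi * z) * Real.exp (-(Real.pi * z)) = 1 := by
    rw [← Real.exp_add]; simp
  have h8 : (1 + z ^ 2) ^ 2 * Real.exp (-(Real.pi * z)) ≤ 3 := by
    have := mul_le_mul_of_nonneg_right h1 (Real.exp_pos (-(Real.pi * z))).le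
    rw [mul_assoc, h7] at this
    linarith
  have h9 : Real.exp (-(Real.pi / z)) ≤ 1 :=
    Real.exp_le_one_iff.2 (by have : 0 < Real.pi / z := by positivity
                              linarith)
  have h10 : 3 * Real.exp (-(Real.pi / z)) ≤ z ^ 2 := by
    have h11 : Real.exp (-(Real.pi / z)) ≤ Real.exp (-(3 / z)) := by
      apply Real.exp_le_exp.2
      have : 3 / z ≤ Real.pi / z := div_le_div_of_nonneg_right hpi.le hz.le
      linarith
    have h12 := sq_half_le_exp (x := 3 / z) (by positivity)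
    have h13 : Real.exp (3 / z) * Real.exp (-(3 / z)) = 1 := by
      rw [← Real.exp_add]; simp
    have h14 : (3 / z) ^ 2 / 2 * Real.exp (-(3 / z)) ≤ 1 := by
      have := mul_le_mul_of_nonneg_right h12 (Real.exp_pos (-(3 / z))).le
      rwa [h13] at this
    have h15 : (3 / z) ^ 2 / 2 * z ^ 2 = 9 / 2 := by
      field_simp
      norm_num
    have h16 : (3 / z) ^ 2 / 2 * Real.exp (-(3 / z)) * z ^ 2 ≤ 1 * z ^ 2 :=
      mul_le_mul_of_nonneg_right h14 (by positivity)
    have h17 : (3 / z) ^ 2 / 2 * Real.exp (-(3 / z)) * z ^ 2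
        = 9 / 2 * Real.exp (-(3 / z)) := by rw [← h15]; ring
    rw [h17] at h16
    have h18 : 0 < Real.exp (-(3 / z)) := Real.exp_pos _
    linarith
  have hnn : 0 ≤ Real.exp (-(Real.pi / z)) := (Real.exp_pos _).le
  have h19 : h0 z * (1 + z ^ 2) ^ 2 ≤ 3 * Real.exp (-(Real.pi / z)) := by
    rw [e0]
    calc Real.exp (-(Real.pi * z)) * Real.exp (-(Real.pi / z)) * (1 + z ^ 2) ^ 2
        = ((1 + z ^ 2) ^ 2 * Real.exp (-(Real.pi * z))) * Real.exp (-(Real.pi / z)) := by ring
      _ ≤ 3 * Real.exp (-(Real.pi / z)) := mul_le_mul_of_nonneg_right h8 hnn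
  constructor
  · linarith
  · linarith

/-- the telescoping majorant. -/
noncomputable def uu (K x : ℝ) : ℝ := Real.sqrt (x / (x + K))

theorem uu_step (K : ℝ) (hK : 1 ≤ K) (n : ℕ) :
    K * Real.sqrt K / (Real.sqrt ((n : ℝ) + 1) * (((n : ℝ) + 1) + K) ^ 2)
      ≤ 2 * (uu K ((n : ℝ) + 1) - uu K n) := by
  have hn : (0 : ℝ) ≤ n := Nat.cast_nonneg n
  set m : ℝ := (n : ℝ) + 1 with hm
  have hn' : (n : ℝ) = m - 1 := by rw [hm]; ring
  have hm1 : 1 ≤ m := by rw [hm]; linarith
  set a := uu K m with ha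
  set b := uu K n with hb
  have ha2 : a ^ 2 = m / (m + K) := Real.sq_sqrt (by positivity)
  have hb2 : b ^ 2 = (n : ℝ) / (n + K) := Real.sq_sqrt (by positivity)
  have ha0 : 0 < a := Real.sqrt_pos.2 (by positivity)
  have hb0 : 0 ≤ b := Real.sqrt_nonneg _
  have hdiff : a ^ 2 - b ^ 2 = K / ((m + K) * (m - 1 + K)) := by
    rw [ha2, hb2, hn']
    have h1 : m + K ≠ 0 := by positivity
    have h2 : m - 1 + K ≠ 0 := by
      have : 0 < m - 1 + K := by linarith
      exact this.ne'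
    field_simp
    ring
  have hp : 0 < m - 1 + K := by linarith
  have hba : b ≤ a := by
    have : b ^ 2 ≤ a ^ 2 := by
      have : 0 ≤ K / ((m + K) * (m - 1 + K)) := by positivity
      linarith
    exact le_of_sq_le_sq this ha0.le
  have h3 : K / ((m + K) * (m - 1 + K)) ≤ (a - b) * (2 * a) := by
    rw [← hdiff]; nlinarith
  -- a = sqrt m / sqrt (m+K)
  have haq : a = Real.sqrt m / Real.sqrt (m + K) := by
    rw [ha]; unfold uu; rw [Real.sqrt_div (by positivity)]
  have hsm : 0 < Real.sqrt m := Real.sqrt_pos.2 (by positivity)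
  have hsK : Real.sqrt K ≤ Real.sqrt (m + K) := Real.sqrt_le_sqrt (by linarith)
  have hsK0 : 0 < Real.sqrt (m + K) := Real.sqrt_pos.2 (by positivity)
  have h4 : K / ((m + K) * (m - 1 + K)) / (2 * a) ≤ a - b := by
    rw [div_le_iff₀ (by positivity)]; exact h3
  have h5 : K * Real.sqrt K / (Real.sqrt m * (m + K) ^ 2)
      ≤ 2 * (K / ((m + K) * (m - 1 + K)) / (2 * a)) := by
    rw [haq]
    have e1 : 2 * (K / ((m + K) * (m - 1 + K)) / (2 * (Real.sqrt m / Real.sqrt (m + K))))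
        = K * Real.sqrt (m + K) / (Real.sqrt m * ((m + K) * (m - 1 + K))) := by
      field_simp
    rw [e1]
    apply div_le_div₀ (by positivity)
    · exact mul_le_mul_of_nonneg_left hsK (by positivity)
    · positivity
    · apply mul_le_mul_of_nonneg_left _ hsm.le
      rw [sq]
      apply mul_le_mul_of_nonneg_left _ (by positivity)
      linarith
  linarith

theorem uu_sum (K : ℝ) (hK : 1 ≤ K) (M : ℕ) :
    ∑ n ∈ Finset.range M,
      K * Real.sqrt K / (Real.sqrt ((n : ℝ) + 1) * (((n : ℝ) + 1) + K) ^ 2) ≤ 2 := by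
  have h1 : ∑ n ∈ Finset.range M,
      K * Real.sqrt K / (Real.sqrt ((n : ℝ) + 1) * (((n : ℝ) + 1) + K) ^ 2)
      ≤ ∑ n ∈ Finset.range M, 2 * (uu K (((n + 1 : ℕ) : ℝ)) - uu K ((n : ℕ) : ℝ)) := by
    apply Finset.sum_le_sum
    intro n _
    have := uu_step K hK n
    push_cast
    exact this
  rw [← Finset.mul_sum, Finset.sum_range_sub (fun n : ℕ => uu K (n : ℝ))] at h1
  have h2 : uu K ((0 : ℕ) : ℝ) = 0 := by simp [uu]
  have h3 : uu K (M : ℝ) ≤ 1 := by
    unfold uu
    rw [show (1 : ℝ) = Real.sqrt 1 by simp]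
    apply Real.sqrt_le_sqrt
    have hM : (0 : ℝ) ≤ M := Nat.cast_nonneg M
    rw [div_le_one (by linarith)]
    linarith
  rw [h2] at h1
  linarith

set_option maxHeartbeats 4000000 in
/-- the pointwise bound. -/
theorem appr_term (hY : YfactStatement) (K X m : ℝ) (hK : 1 ≤ K) (hX : Real.sqrt K ≤ X)
    (hm : 1 ≤ m) :
    ‖EE (X / (2 * Real.sqrt K)) X m
      - ((h0 (Real.sqrt (m / K)) : ℝ) : ℂ) * e (X * Real.sqrt m)‖
    ≤ 1 / (m * Real.sqrt m)
      + 6 * (K * Real.sqrt K / (Real.sqrt m * (m + K) ^ 2)) := by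
  set s := Real.sqrt K with hs
  have hs1 : 1 ≤ s := by rw [hs]; exact Real.one_le_sqrt.2 hK
  have hss : s ^ 2 = K := Real.sq_sqrt (by linarith)
  have hX1 : 1 ≤ X := hs1.trans hX
  set N := X / (2 * s) with hN
  have hN2 : 1 / 2 ≤ N := by
    rw [hN, div_le_div_iff₀ (by norm_num) (by positivity)]
    linarith
  have hNp : 0 < N := by linarith
  obtain ⟨hYall, _⟩ := hY N hNp
  obtain ⟨hY0, _, hYlo, hYhi⟩ := hYall m (by linarith)
  set Y := YY N m with hYd
  set r := Real.sqrt m with hr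
  have hr1 : 1 ≤ r := by rw [hr]; exact Real.one_le_sqrt.2 hm
  have hrr : r ^ 2 = m := Real.sq_sqrt (by linarith)
  set z := Y / (2 * s) with hz
  set z0 := r / s with hz0
  have hz00 : 0 < z0 := by positivity
  have hsq : Real.sqrt (m / K) = z0 := by rw [hz0, hr, hs, Real.sqrt_div (by linarith)]
  have hEz : N * Y / X = z := by rw [hN, hz]; field_simp
  have hzz0 : z0 ≤ z := by
    rw [hz0, hz, div_le_div_iff₀ (by positivity) (by positivity)]
    nlinarith
  -- Y - 2 r ≤ 1 / (4 m r)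
  have hYu : Y - 2 * r ≤ 1 / (4 * (m * r)) := by
    refine hYhi.trans ?_
    apply one_div_le_one_div_of_le (by positivity)
    have : 4 * (m * r) = (16 * (1 / 2) ^ 2) * (m * r) := by ring
    rw [this]
    apply mul_le_mul_of_nonneg_right _ (by positivity)
    have : (1 / 2 : ℝ) ^ 2 ≤ N ^ 2 := by nlinarith
    linarith
  have hzd : z - z0 = (Y - 2 * r) / (2 * s) := by rw [hz, hz0]; field_simp
  have hzd1 : z - z0 ≤ 1 / (8 * (m * r)) := by
    rw [hzd]
    have h1 : (Y - 2 * r) / (2 * s) ≤ (1 / (4 * (m * r))) / (2 * s) :=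
      div_le_div_of_nonneg_right hYu (by positivity)
    refine h1.trans ?_
    rw [div_div]
    apply one_div_le_one_div_of_le (by positivity)
    nlinarith [mul_pos (show (0 : ℝ) < m by linarith) (show (0 : ℝ) < r by linarith)]
  have hzd2 : z ≤ 9 / 8 * z0 := by
    have h1 : z - z0 ≤ z0 / 8 := by
      rw [hzd, hz0]
      have h2 : Y - 2 * r ≤ r / 4 := by
        refine hYu.trans ?_
        rw [div_le_div_iff₀ (by positivity) (by norm_num)]
        nlinarith [mul_pos (show (0 : ℝ) < m by linarith) (show (0 : ℝ) < r by linarith)]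
      have h3 : (Y - 2 * r) / (2 * s) ≤ (r / 4) / (2 * s) :=
        div_le_div_of_nonneg_right h2 (by positivity)
      refine h3.trans (le_of_eq ?_)
      field_simp
      norm_num
    linarith
  have hA := h0_sub z z0 hz00 hzz0 hzd2
  -- decomposition
  have hdec : EE N X m - ((h0 (Real.sqrt (m / K)) : ℝ) : ℂ) * e (X * r)
      = ((h0 z - h0 z0 : ℝ) : ℂ) * e ((X * Y - 1 / (X * Y)) / 2)
        + ((h0 z0 : ℝ) : ℂ) * (e ((X * Y - 1 / (X * Y)) / 2) - e (X * r)) := by
    unfold EE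
    rw [← hYd, hEz, hsq]
    push_cast
    ring
  rw [hdec]
  refine (norm_add_le _ _).trans ?_
  have hh0 : 0 < h0 z0 := Real.exp_pos _
  have p1 : ‖((h0 z - h0 z0 : ℝ) : ℂ) * e ((X * Y - 1 / (X * Y)) / 2)‖ ≤ 1 / (m * r) := by
    rw [norm_mul, norm_e, mul_one, Complex.norm_real, Real.norm_eq_abs]
    refine hA.trans ?_
    have h1 : 5 * (z - z0) ≤ 5 * (1 / (8 * (m * r))) := by linarith
    refine h1.trans ?_
    have h2 : 5 * (1 / (8 * (m * r))) = 5 / 8 * (1 / (m * r)) := by field_simp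
    rw [h2]
    have h3 : 0 < 1 / (m * r) := by positivity
    linarith
  have p2 : ‖((h0 z0 : ℝ) : ℂ) * (e ((X * Y - 1 / (X * Y)) / 2) - e (X * r))‖
      ≤ h0 z0 * (2 * Real.pi * (s / (8 * (m * r)) + 1 / (4 * (s * r)))) := by
    rw [norm_mul, Complex.norm_real, Real.norm_eq_abs, abs_of_pos hh0]
    apply mul_le_mul_of_nonneg_left _ hh0.le
    refine (e_sub_le _ _).trans ?_
    apply mul_le_mul_of_nonneg_left _ (by positivity)
    have e1 : (X * Y - 1 / (X * Y)) / 2 - X * r = X * (Y - 2 * r) / 2 - 1 / (2 * (X * Y)) := by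
      field_simp
      ring
    rw [e1]
    have hXp : 0 < X := by linarith
    have q1 : X * (Y - 2 * r) / 2 ≤ s / (8 * (m * r)) := by
      have h1 : X * (Y - 2 * r) ≤ X * (1 / (16 * N ^ 2 * (m * r))) :=
        mul_le_mul_of_nonneg_left hYhi hXp.le
      have h2 : X * (1 / (16 * N ^ 2 * (m * r))) = s ^ 2 / (4 * X * (m * r)) := by
        rw [hN]; field_simp; ring
      rw [h2] at h1
      have h3 : s ^ 2 / (4 * X * (m * r)) ≤ s / (4 * (m * r)) := by
        rw [div_le_div_iff₀ (by positivity) (by positivity)]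
        have h4 : s * (m * r * s) ≤ X * (m * r * s) :=
          mul_le_mul_of_nonneg_right hX (by positivity)
        nlinarith
      have h5 : s / (8 * (m * r)) = s / (4 * (m * r)) / 2 := by field_simp; norm_num
      rw [h5]
      linarith
    have q2 : 1 / (2 * (X * Y)) ≤ 1 / (4 * (s * r)) := by
      apply one_div_le_one_div_of_le (by positivity)
      have : s * (2 * r) ≤ X * Y := mul_le_mul hX hYlo (by positivity) hXp.le
      linarith
    have q3 : 0 ≤ X * (Y - 2 * r) / 2 := by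
      have := sub_nonneg.2 hYlo
      positivity
    have q4 : 0 ≤ 1 / (2 * (X * Y)) := by positivity
    have q5 : 0 < s / (8 * (m * r)) := by positivity
    have q6 : 0 < 1 / (4 * (s * r)) := by positivity
    rw [abs_le]
    constructor <;> linarith
  refine (add_le_add p1 p2).trans ?_
  apply add_le_add le_rfl
  -- h0 z0 * (...) ≤ 6 * ...
  obtain ⟨d1, d2⟩ := h0_decay z0 hz00
  have hB : K * s / (r * (m + K) ^ 2) = 1 / (s * r * (1 + z0 ^ 2) ^ 2) := by
    have e1 : (1 + z0 ^ 2) = (m + K) / K := by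
      rw [hz0, div_pow, hss, hrr]
      field_simp
      ring
    rw [e1, ← hss]
    field_simp
  rw [hB]
  set D := (1 + z0 ^ 2) ^ 2 with hD
  have hDp : 0 < D := by positivity
  have k1 : h0 z0 * (s / (m * r)) ≤ 1 / (s * r * D) := by
    rw [le_div_iff₀ (by positivity)]
    have e1 : h0 z0 * (s / (m * r)) * (s * r * D) = (h0 z0 * D) * (s ^ 2 / m) := by
      field_simp
    rw [e1]
    have e2 : z0 ^ 2 * (s ^ 2 / m) = 1 := by
      rw [hz0, div_pow, ← hrr]; field_simp
    rw [← e2]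
    apply mul_le_mul_of_nonneg_right d1
    positivity
  have k2 : h0 z0 * (1 / (s * r)) ≤ 3 * (1 / (s * r * D)) := by
    have e1 : 3 * (1 / (s * r * D)) = 3 / D * (1 / (s * r)) := by field_simp
    rw [e1]
    apply mul_le_mul_of_nonneg_right _ (by positivity)
    rw [le_div_iff₀ hDp]
    exact d2
  have hpi4 := Real.pi_lt_d2
  have hpi := Real.pi_gt_three
  have e3 : h0 z0 * (2 * Real.pi * (s / (8 * (m * r)) + 1 / (4 * (s * r))))
      = Real.pi / 4 * (h0 z0 * (s / (m * r))) + Real.pi / 2 * (h0 z0 * (1 / (s * r))) := by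
    field_simp
    ring
  rw [e3]
  have hU : 0 < 1 / (s * r * D) := by positivity
  have k3 : Real.pi / 4 * (h0 z0 * (s / (m * r))) ≤ Real.pi / 4 * (1 / (s * r * D)) :=
    mul_le_mul_of_nonneg_left k1 (by positivity)
  have k4 : Real.pi / 2 * (h0 z0 * (1 / (s * r))) ≤ Real.pi / 2 * (3 * (1 / (s * r * D))) :=
    mul_le_mul_of_nonneg_left k2 (by positivity)
  nlinarith

theorem appr (hY : YfactStatement) : ApprStatement := by
  have hsum : Summable (fun n : ℕ => 1 / (((n : ℝ) + 1) * Real.sqrt ((n : ℝ) + 1))) := by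
    have h1 : Summable (fun n : ℕ => 1 / ((n : ℝ) ^ (3 / 2 : ℝ))) :=
      Real.summable_one_div_nat_rpow.2 (by norm_num)
    have h2 := (summable_nat_add_iff 1).2 h1
    refine h2.congr ?_
    intro n
    push_cast
    congr 1
    have hp : (0 : ℝ) < (n : ℝ) + 1 := by positivity
    rw [show (3 / 2 : ℝ) = 1 + 1 / 2 by norm_num, Real.rpow_add hp, Real.rpow_one,
      ← Real.sqrt_eq_rpow]
  set S := ∑' n : ℕ, 1 / (((n : ℝ) + 1) * Real.sqrt ((n : ℝ) + 1)) with hS
  have hS0 : 0 ≤ S := tsum_nonneg (fun n => by positivity)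
  refine ⟨S + 12, by linarith, ?_⟩
  intro K X hK hX
  have hterm : ∀ n : ℕ, ‖EE (X / (2 * Real.sqrt K)) X ((n : ℝ) + 1)
      - ((h0 (Real.sqrt (((n : ℝ) + 1) / K)) : ℝ) : ℂ) * e (X * Real.sqrt ((n : ℝ) + 1))‖
      ≤ 1 / (((n : ℝ) + 1) * Real.sqrt ((n : ℝ) + 1))
      + 6 * (K * Real.sqrt K / (Real.sqrt ((n : ℝ) + 1) * (((n : ℝ) + 1) + K) ^ 2)) := by
    intro n
    exact appr_term hY K X _ hK hX (by have : (0 : ℝ) ≤ n := Nat.cast_nonneg n
                                       linarith)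
  have hpart : ∀ M : ℕ, ∑ n ∈ Finset.range M, ‖EE (X / (2 * Real.sqrt K)) X ((n : ℝ) + 1)
      - ((h0 (Real.sqrt (((n : ℝ) + 1) / K)) : ℝ) : ℂ) * e (X * Real.sqrt ((n : ℝ) + 1))‖
      ≤ S + 12 := by
    intro M
    refine (Finset.sum_le_sum (fun n _ => hterm n)).trans ?_
    rw [Finset.sum_add_distrib, ← Finset.mul_sum]
    have h1 : ∑ n ∈ Finset.range M, 1 / (((n : ℝ) + 1) * Real.sqrt ((n : ℝ) + 1)) ≤ S :=
      hsum.sum_le_tsum _ (fun n _ => by positivity)
    have h2 := uu_sum K hK M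
    linarith
  refine ⟨summable_of_sum_range_le (fun n => norm_nonneg _) hpart,
    Real.tsum_le_of_sum_range_le (fun n => norm_nonneg _) hpart⟩

end Pool.Agent.Lib.MP_3ee548_nt.RS.H32
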