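import Pool.Agent.Lib.MP_3ee548_nt.RS.Iface

/-! FTI: the complex inverse Gaussian integral. -/

set_option autoImplicit false

namespace Pool.Agent.Lib.MP_3ee548_nt.RS.H32.Fti

open Pool.Agent.Lib.MP_3ee548_nt.RS
open MeasureTheory Set Filter Topology

/-! ## Real case -/

/-- the Gaussian primitive. -/
noncomputable def Ph (x : ℝ) : ℝ := ∫ z in (0 : ℝ)..x, Real.exp (-Real.pi * z ^ 2)

theorem Ph_deriv (x : ℝ) : HasDerivAt Ph (Real.exp (-Real.pi * x ^ 2)) x := by
  have hc : Continuous (fun z : ℝ => Real.exp (-Real.pi * z ^ 2)) := by fun_prop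
  exact intervalIntegral.integral_hasDerivAt_right (hc.intervalIntegrable _ _)
    (hc.stronglyMeasurableAtFilter _ _) hc.continuousAt

theorem Ph_top : Tendsto Ph atTop (𝓝 (1 / 2)) := by
  have h1 : IntegrableOn (fun z : ℝ => Real.exp (-Real.pi * z ^ 2)) (Ioi 0) :=
    (integrable_exp_neg_mul_sq Real.pi_pos).integrableOn
  have h2 := intervalIntegral_tendsto_integral_Ioi (0 : ℝ) h1 tendsto_id
  rw [integral_gaussian_Ioi, div_self Real.pi_ne_zero, Real.sqrt_one] at h2
  exact h2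

theorem Ph_neg (x : ℝ) : Ph (-x) = -Ph x := by
  unfold Ph
  have h := intervalIntegral.integral_comp_neg (a := (0 : ℝ)) (b := x)
    (fun z : ℝ => Real.exp (-Real.pi * z ^ 2))
  simp only [neg_sq, neg_zero] at h
  rw [h, intervalIntegral.integral_symm]

theorem Ph_bot : Tendsto Ph atBot (𝓝 (-(1 / 2))) := by
  have h1 : Tendsto (fun x => -Ph (-x)) atBot (𝓝 (-(1 / 2))) :=
    (Ph_top.comp tendsto_neg_atBot_atTop).neg
  refine h1.congr ?_
  intro x
  rw [Ph_neg, neg_neg]

/-- the primitive. -/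
noncomputable def PP (s t y : ℝ) : ℝ :=
  -(Ph (s / Real.sqrt y - t * Real.sqrt y)
    + Real.exp (4 * Real.pi * s * t) * Ph (s / Real.sqrt y + t * Real.sqrt y))

theorem rpow_m32 (y : ℝ) (hy : 0 < y) : y ^ (-(3 / 2) : ℝ) = 1 / (y * Real.sqrt y) := by
  rw [Real.rpow_neg hy.le, show (3 / 2 : ℝ) = 1 + 1 / 2 by norm_num, Real.rpow_add hy,
    Real.rpow_one, ← Real.sqrt_eq_rpow, one_div]

theorem PP_deriv (s t y : ℝ) (hy : 0 < y) :
    HasDerivAt (PP s t) (s * Real.exp (2 * Real.pi * s * t) * (y ^ (-(3 / 2) : ℝ) *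
      Real.exp (-Real.pi * s ^ 2 / y - Real.pi * t ^ 2 * y))) y := by
  set r := Real.sqrt y with hr
  have hr0 : 0 < r := Real.sqrt_pos.2 hy
  have hrr : r ^ 2 = y := Real.sq_sqrt hy.le
  have h1 : HasDerivAt (fun y => Real.sqrt y) (1 / (2 * r)) y := Real.hasDerivAt_sqrt hy.ne'
  have h2 : HasDerivAt (fun y => s / Real.sqrt y) (-(s / (2 * (y * r)))) y := by
    have h3 := (h1.inv hr0.ne').const_mul s
    refine h3.congr_deriv ?_
    rw [← hr, hrr]
    field_simp
  have h3 : HasDerivAt (fun y => t * Real.sqrt y) (t / (2 * r)) y := by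
    have h4 := h1.const_mul t
    refine h4.congr_deriv ?_
    ring
  have hp : HasDerivAt (fun y => s / Real.sqrt y - t * Real.sqrt y)
      (-(s / (2 * (y * r))) - t / (2 * r)) y := h2.sub h3
  have hq : HasDerivAt (fun y => s / Real.sqrt y + t * Real.sqrt y)
      (-(s / (2 * (y * r))) + t / (2 * r)) y := h2.add h3
  have hP := (Ph_deriv (s / r - t * r)).comp y hp
  have hQ := ((Ph_deriv (s / r + t * r)).comp y hq).const_mul (Real.exp (4 * Real.pi * s * t))
  have hT := (hP.add hQ).neg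
  refine hT.congr_deriv ?_
  rw [rpow_m32 y hy, ← hr]
  have e1 : Real.exp (4 * Real.pi * s * t) * (Real.exp (-Real.pi * (s / r + t * r) ^ 2)
      * (-(s / (2 * (y * r))) + t / (2 * r)))
      = Real.exp (-Real.pi * (s / r - t * r) ^ 2) * (-(s / (2 * (y * r))) + t / (2 * r)) := by
    rw [← mul_assoc, ← Real.exp_add]
    congr 2
    field_simp
    ring
  rw [e1]
  have e2 : Real.exp (-Real.pi * (s / r - t * r) ^ 2)
      = Real.exp (2 * Real.pi * s * t) * Real.exp (-Real.pi * s ^ 2 / y - Real.pi * t ^ 2 * y) := by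
    rw [← Real.exp_add]
    congr 1
    rw [← hrr]
    field_simp
    ring
  rw [e2]
  field_simp
  ring

theorem PP_top (s t : ℝ) (hs : 0 < s) (ht : 0 < t) :
    Tendsto (PP s t) atTop (𝓝 (-(-(1 / 2) + Real.exp (4 * Real.pi * s * t) * (1 / 2)))) := by
  have h1 : Tendsto (fun y : ℝ => s / Real.sqrt y) atTop (𝓝 0) :=
    Real.tendsto_sqrt_atTop.const_div_atTop s
  have h2 : Tendsto (fun y : ℝ => t * Real.sqrt y) atTop atTop :=
    Real.tendsto_sqrt_atTop.const_mul_atTop ht
  have h3 : Tendsto (fun y : ℝ => s / Real.sqrt y + t * Real.sqrt y) atTop atTop :=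
    h1.add_atTop h2
  have h4 : Tendsto (fun y : ℝ => s / Real.sqrt y - t * Real.sqrt y) atTop atBot := by
    have := h1.add_atBot (tendsto_neg_atTop_atBot.comp h2)
    exact this
  exact ((Ph_bot.comp h4).add ((Ph_top.comp h3).const_mul _)).neg

theorem PP_zero (s t : ℝ) (hs : 0 < s) (ht : 0 < t) :
    Tendsto (PP s t) (𝓝[>] 0) (𝓝 (-(1 / 2 + Real.exp (4 * Real.pi * s * t) * (1 / 2)))) := by
  have h0 : Tendsto (fun y : ℝ => Real.sqrt y) (𝓝[>] 0) (𝓝[>] 0) := by
    apply tendsto_nhdsWithin_iff.2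
    constructor
    · have : Tendsto (fun y : ℝ => Real.sqrt y) (𝓝 0) (𝓝 (Real.sqrt 0)) :=
        Real.continuous_sqrt.tendsto 0
      rw [Real.sqrt_zero] at this
      exact this.mono_left nhdsWithin_le_nhds
    · filter_upwards [self_mem_nhdsWithin] with y hy
      exact Real.sqrt_pos.2 hy
  have h1 : Tendsto (fun y : ℝ => s / Real.sqrt y) (𝓝[>] 0) atTop := by
    have := (tendsto_inv_nhdsGT_zero.comp h0).const_mul_atTop hs
    refine this.congr ?_
    intro y
    simp [div_eq_mul_inv]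
  have h2 : Tendsto (fun y : ℝ => t * Real.sqrt y) (𝓝[>] 0) (𝓝 0) := by
    have := (h0.mono_right nhdsWithin_le_nhds).const_mul t
    rwa [mul_zero] at this
  have h3 : Tendsto (fun y : ℝ => s / Real.sqrt y + t * Real.sqrt y) (𝓝[>] 0) atTop :=
    h1.atTop_add h2
  have h4 : Tendsto (fun y : ℝ => s / Real.sqrt y - t * Real.sqrt y) (𝓝[>] 0) atTop := by
    have := h1.atTop_add h2.neg
    exact this
  exact ((Ph_top.comp h4).add ((Ph_top.comp h3).const_mul _)).neg

theorem real_case (s t : ℝ) (hs : 0 < s) (ht : 0 < t) :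
    IntegrableOn (fun y : ℝ => y ^ (-(3 / 2) : ℝ) *
      Real.exp (-Real.pi * s ^ 2 / y - Real.pi * t ^ 2 * y)) (Ioi 0) ∧
    s * ∫ y in Ioi (0 : ℝ), y ^ (-(3 / 2) : ℝ) *
      Real.exp (-Real.pi * s ^ 2 / y - Real.pi * t ^ 2 * y) = Real.exp (-2 * Real.pi * (s * t)) := by
  set c0 : ℝ := -(1 / 2 + Real.exp (4 * Real.pi * s * t) * (1 / 2)) with hc0
  set G : ℝ → ℝ := Function.update (PP s t) 0 c0 with hG
  have hder : ∀ x ∈ Ioi (0 : ℝ), HasDerivAt G (s * Real.exp (2 * Real.pi * s * t) *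
      (x ^ (-(3 / 2) : ℝ) * Real.exp (-Real.pi * s ^ 2 / x - Real.pi * t ^ 2 * x))) x := by
    intro x hx
    apply (PP_deriv s t x hx).congr_of_eventuallyEq
    filter_upwards [eventually_ne_nhds (ne_of_gt hx)] with y hy
    exact Function.update_of_ne hy _ _
  have hcont : ContinuousWithinAt G (Ici 0) 0 := by
    apply continuousWithinAt_update_same.mpr
    rw [Ici_sdiff_left]
    exact PP_zero s t hs ht
  have htop : Tendsto G atTop (𝓝 (-(-(1 / 2) + Real.exp (4 * Real.pi * s * t) * (1 / 2)))) := by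
    apply (PP_top s t hs ht).congr'
    filter_upwards [eventually_ne_atTop 0] with x hx
    exact (Function.update_of_ne hx _ _).symm
  have hpos : ∀ x ∈ Ioi (0 : ℝ), 0 ≤ s * Real.exp (2 * Real.pi * s * t) *
      (x ^ (-(3 / 2) : ℝ) * Real.exp (-Real.pi * s ^ 2 / x - Real.pi * t ^ 2 * x)) := by
    intro x hx
    have : 0 ≤ x ^ (-(3 / 2) : ℝ) := Real.rpow_nonneg (le_of_lt hx) _
    positivity
  have hint := integrableOn_Ioi_deriv_of_nonneg hcont hder hpos htop
  have hval := integral_Ioi_of_hasDerivAt_of_nonneg hcont hder hpos htop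
  have hG0 : G 0 = c0 := Function.update_self _ _ _
  have hk : s * Real.exp (2 * Real.pi * s * t) ≠ 0 := by positivity
  constructor
  · have := (integrable_const_mul_iff (isUnit_iff_ne_zero.2 hk) _).1 hint
    exact this
  · rw [integral_const_mul, hG0, hc0] at hval
    have e1 : Real.exp (-2 * Real.pi * (s * t)) * Real.exp (2 * Real.pi * s * t) = 1 := by
      rw [← Real.exp_add]
      ring_nf
      exact Real.exp_zero
    set J := ∫ y in Ioi (0 : ℝ), y ^ (-(3 / 2) : ℝ) *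
      Real.exp (-Real.pi * s ^ 2 / y - Real.pi * t ^ 2 * y) with hJ
    have e2 : s * Real.exp (2 * Real.pi * s * t) * J = 1 := by rw [hval]; ring
    calc s * J = Real.exp (-2 * Real.pi * (s * t)) * Real.exp (2 * Real.pi * s * t) * (s * J) := by
          rw [e1, one_mul]
      _ = Real.exp (-2 * Real.pi * (s * t)) * (s * Real.exp (2 * Real.pi * s * t) * J) := by ring
      _ = _ := by rw [e2, mul_one]

/-! ## Analyticity in the parameter -/

theorem diff_param (g : ℝ → ℂ) (u : ℝ → ℝ) (hu0 : ∀ y ∈ Ioi (0 : ℝ), 0 ≤ u y)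
    (hum : Measurable u) (hgm : Measurable g)
    (hint : ∀ c : ℝ, 0 < c → IntegrableOn (fun y => ‖g y‖ * Real.exp (-(c * u y))) (Ioi 0)) :
    DifferentiableOn ℂ (fun a : ℂ => ∫ y in Ioi (0 : ℝ), g y * Complex.exp (-(a * u y)))
      {a : ℂ | 0 < a.re} := by
  intro a0 ha0
  have ha0' : 0 < a0.re := ha0
  set c := a0.re / 2 with hc
  have hc0 : 0 < c := by positivity
  have hmeas : ∀ a : ℂ, Measurable (fun y => g y * Complex.exp (-(a * u y))) := by
    intro a
    apply hgm.mul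
    apply Complex.measurable_exp.comp
    exact ((Complex.measurable_ofReal.comp hum).const_mul a).neg
  have hnorm : ∀ (a : ℂ) (y : ℝ), ‖Complex.exp (-(a * u y))‖ = Real.exp (-(a.re * u y)) := by
    intro a y
    rw [Complex.norm_exp]
    congr 1
    simp
  have hs : Metric.ball a0 c ∈ 𝓝 a0 := Metric.ball_mem_nhds _ hc0
  have hre : ∀ a ∈ Metric.ball a0 c, c < a.re := by
    intro a ha
    have h1 : ‖a - a0‖ < c := by rwa [← dist_eq_norm]
    have h2 : |(a - a0).re| ≤ ‖a - a0‖ := Complex.abs_re_le_norm _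
    have h3 := (abs_lt.1 (lt_of_le_of_lt h2 h1)).1
    rw [Complex.sub_re] at h3
    have : a0.re = 2 * c := by rw [hc]; ring
    linarith
  have key := hasDerivAt_integral_of_dominated_loc_of_deriv_le
    (μ := volume.restrict (Ioi (0 : ℝ)))
    (F := fun (a : ℂ) (y : ℝ) => g y * Complex.exp (-(a * u y)))
    (F' := fun (a : ℂ) (y : ℝ) => g y * (Complex.exp (-(a * u y)) * (-(u y : ℂ))))
    (x₀ := a0) (s := Metric.ball a0 c)
    (bound := fun y => (2 / c) * (‖g y‖ * Real.exp (-(c / 2 * u y)))) hs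
    (Eventually.of_forall (fun a => (hmeas a).aestronglyMeasurable))
    (by
      refine (hint a0.re ha0').mono' (hmeas a0).aestronglyMeasurable ?_
      filter_upwards with y
      rw [norm_mul, hnorm])
    (by
      apply Measurable.aestronglyMeasurable
      apply hgm.mul
      apply Measurable.mul
      · apply Complex.measurable_exp.comp
        exact ((Complex.measurable_ofReal.comp hum).const_mul a0).neg
      · exact (Complex.measurable_ofReal.comp hum).neg)
    (by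
      filter_upwards [ae_restrict_mem measurableSet_Ioi] with y hy a ha
      have hu := hu0 y hy
      rw [norm_mul, norm_mul, hnorm, norm_neg, Complex.norm_real, Real.norm_eq_abs,
        abs_of_nonneg hu]
      have h1 : Real.exp (-(a.re * u y)) ≤ Real.exp (-(c * u y)) := by
        apply Real.exp_le_exp.2
        have := hre a ha
        nlinarith
      have h2 : u y * Real.exp (-(c * u y)) ≤ 2 / c * Real.exp (-(c / 2 * u y)) := by
        have h3 : c / 2 * u y ≤ Real.exp (c / 2 * u y) := by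
          have := Real.add_one_le_exp (c / 2 * u y)
          linarith
        have h4 : Real.exp (-(c * u y)) = Real.exp (-(c / 2 * u y)) * Real.exp (-(c / 2 * u y)) := by
          rw [← Real.exp_add]; congr 1; ring
        have h5 : Real.exp (c / 2 * u y) * Real.exp (-(c / 2 * u y)) = 1 := by
          rw [← Real.exp_add]; simp
        have h6 : c / 2 * u y * Real.exp (-(c / 2 * u y)) ≤ 1 := by
          rw [← h5]
          exact mul_le_mul_of_nonneg_right h3 (Real.exp_pos _).le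
        rw [h4]
        calc u y * (Real.exp (-(c / 2 * u y)) * Real.exp (-(c / 2 * u y)))
            = 2 / c * (c / 2 * u y * Real.exp (-(c / 2 * u y))) * Real.exp (-(c / 2 * u y)) := by
              field_simp
          _ ≤ 2 / c * 1 * Real.exp (-(c / 2 * u y)) := by
              apply mul_le_mul_of_nonneg_right _ (Real.exp_pos _).le
              exact mul_le_mul_of_nonneg_left h6 (by positivity)
          _ = _ := by ring
      calc ‖g y‖ * (Real.exp (-(a.re * u y)) * u y)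
          ≤ ‖g y‖ * (u y * Real.exp (-(c * u y))) := by
            apply mul_le_mul_of_nonneg_left _ (norm_nonneg _)
            rw [mul_comm]
            exact mul_le_mul_of_nonneg_left h1 hu
        _ ≤ ‖g y‖ * (2 / c * Real.exp (-(c / 2 * u y))) :=
            mul_le_mul_of_nonneg_left h2 (norm_nonneg _)
        _ = _ := by ring)
    (by
      exact (hint (c / 2) (by positivity)).const_mul (2 / c))
    (by
      filter_upwards with y a _
      apply HasDerivAt.const_mul
      apply HasDerivAt.cexp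
      have h7 : HasDerivAt (fun x : ℂ => -(x * (u y : ℂ))) (-(1 * (u y : ℂ))) a :=
        ((hasDerivAt_id a).mul_const (u y : ℂ)).neg
      rw [one_mul] at h7
      exact h7)
  exact key.2.differentiableAt.differentiableWithinAt

theorem rhp_open : IsOpen {a : ℂ | 0 < a.re} := isOpen_lt continuous_const Complex.continuous_re

theorem rhp_preconn : IsPreconnected {a : ℂ | 0 < a.re} :=
  (convex_halfSpace_re_gt 0).isPreconnected

/-- identity principle: analytic functions on the right half plane equal at positive reals. -/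
theorem ident (f g : ℂ → ℂ) (hf : DifferentiableOn ℂ f {a : ℂ | 0 < a.re})
    (hg : DifferentiableOn ℂ g {a : ℂ | 0 < a.re}) (h : ∀ x : ℝ, 0 < x → f x = g x) :
    ∀ a : ℂ, 0 < a.re → f a = g a := by
  have h1 := (hf.analyticOnNhd rhp_open).eqOn_of_preconnected_of_frequently_eq
    (hg.analyticOnNhd rhp_open) rhp_preconn (z₀ := 1) (by simp) ?_
  · intro a ha
    exact h1 ha
  · have h2 : Tendsto (fun x : ℝ => (x : ℂ)) (𝓝[≠] (1 : ℝ)) (𝓝[≠] (1 : ℂ)) := by
      apply tendsto_nhdsWithin_iff.2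
      constructor
      · have : Tendsto (fun x : ℝ => (x : ℂ)) (𝓝 (1 : ℝ)) (𝓝 ((1 : ℝ) : ℂ)) :=
          Complex.continuous_ofReal.tendsto 1
        rw [Complex.ofReal_one] at this
        exact this.mono_left nhdsWithin_le_nhds
      · filter_upwards [self_mem_nhdsWithin] with x hx
        intro h3
        apply hx
        have h4 : (x : ℂ) = 1 := h3
        exact_mod_cast h4
    apply h2.frequently
    apply Eventually.frequently
    have h5 : ∀ᶠ x : ℝ in 𝓝 (1 : ℝ), 0 < x := eventually_gt_nhds one_pos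
    filter_upwards [nhdsWithin_le_nhds h5] with x hx
    exact h x hx

/-! ## The statement -/

theorem norm_int (a b : ℂ) (y : ℝ) (hy : 0 < y) :
    ‖((y ^ (-(3 / 2) : ℝ) : ℝ) : ℂ) *
      Complex.exp (-(Real.pi : ℂ) * a / y - (Real.pi : ℂ) * b * y)‖
      = y ^ (-(3 / 2) : ℝ) * Real.exp (-Real.pi * a.re / y - Real.pi * b.re * y) := by
  rw [norm_mul, Complex.norm_real, Real.norm_eq_abs, abs_of_nonneg (Real.rpow_nonneg hy.le _),
    Complex.norm_exp]
  congr 2
  simp [Complex.div_ofReal_re]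

theorem meas_int (a b : ℂ) : Measurable (fun y : ℝ => ((y ^ (-(3 / 2) : ℝ) : ℝ) : ℂ) *
      Complex.exp (-(Real.pi : ℂ) * a / y - (Real.pi : ℂ) * b * y)) := by
  fun_prop

theorem real_int (a b : ℝ) (ha : 0 < a) (hb : 0 < b) :
    IntegrableOn (fun y : ℝ => y ^ (-(3 / 2) : ℝ) *
      Real.exp (-Real.pi * a / y - Real.pi * b * y)) (Ioi 0) := by
  have h := (real_case (Real.sqrt a) (Real.sqrt b) (Real.sqrt_pos.2 ha) (Real.sqrt_pos.2 hb)).1
  rwa [Real.sq_sqrt ha.le, Real.sq_sqrt hb.le] at h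

theorem int_ok (a b : ℂ) (ha : 0 < a.re) (hb : 0 < b.re) :
    IntegrableOn (fun y : ℝ => ((y ^ (-(3 / 2) : ℝ) : ℝ) : ℂ) *
      Complex.exp (-(Real.pi : ℂ) * a / y - (Real.pi : ℂ) * b * y)) (Ioi 0) := by
  refine (real_int a.re b.re ha hb).mono' (meas_int a b).aestronglyMeasurable ?_
  filter_upwards [ae_restrict_mem measurableSet_Ioi] with y hy
  rw [norm_int a b y hy]

theorem slit (a : ℂ) (ha : 0 < a.re) : a ∈ Complex.slitPlane := Or.inl ha

theorem sqrt_cpow (x : ℝ) (hx : 0 ≤ x) : (x : ℂ) ^ (1 / 2 : ℂ) = ((Real.sqrt x : ℝ) : ℂ) := by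
  rw [Real.sqrt_eq_rpow, Complex.ofReal_cpow hx]
  norm_num

theorem cpow_diff : DifferentiableOn ℂ (fun a : ℂ => a ^ (1 / 2 : ℂ)) {a : ℂ | 0 < a.re} := by
  intro a ha
  have := (differentiableAt_id (𝕜 := ℂ) (x := a)).cpow
    (differentiableAt_const (1 / 2 : ℂ)) (slit a ha)
  exact this.differentiableWithinAt

/-- the identity for real `a` and `b`. -/
theorem id_rr (a b : ℝ) (ha : 0 < a) (hb : 0 < b) :
    (a : ℂ) ^ (1 / 2 : ℂ) * ∫ y in Ioi (0 : ℝ), ((y ^ (-(3 / 2) : ℝ) : ℝ) : ℂ) *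
      Complex.exp (-(Real.pi : ℂ) * a / y - (Real.pi : ℂ) * b * y)
    = Complex.exp (-2 * (Real.pi : ℂ) * ((a : ℂ) ^ (1 / 2 : ℂ) * (b : ℂ) ^ (1 / 2 : ℂ))) := by
  have h := (real_case (Real.sqrt a) (Real.sqrt b) (Real.sqrt_pos.2 ha) (Real.sqrt_pos.2 hb)).2
  rw [Real.sq_sqrt ha.le, Real.sq_sqrt hb.le] at h
  rw [sqrt_cpow a ha.le, sqrt_cpow b hb.le]
  have e1 : ∫ y in Ioi (0 : ℝ), ((y ^ (-(3 / 2) : ℝ) : ℝ) : ℂ) *
      Complex.exp (-(Real.pi : ℂ) * a / y - (Real.pi : ℂ) * b * y)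
      = ((∫ y in Ioi (0 : ℝ), y ^ (-(3 / 2) : ℝ) *
        Real.exp (-Real.pi * a / y - Real.pi * b * y) : ℝ) : ℂ) := by
    rw [← integral_complex_ofReal]
    apply integral_congr_ae
    filter_upwards with y
    push_cast
    rfl
  rw [e1, ← Complex.ofReal_mul, h]
  push_cast
  rfl

theorem exp_split1 (a b : ℂ) (y : ℝ) :
    ((y ^ (-(3 / 2) : ℝ) : ℝ) : ℂ) * Complex.exp (-(Real.pi : ℂ) * a / y - (Real.pi : ℂ) * b * y)
      = (((y ^ (-(3 / 2) : ℝ) : ℝ) : ℂ) * Complex.exp (-((Real.pi : ℂ) * a / y)))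
        * Complex.exp (-(b * ((Real.pi * y : ℝ) : ℂ))) := by
  have h : Complex.exp (-(Real.pi : ℂ) * a / y - (Real.pi : ℂ) * b * y)
      = Complex.exp (-((Real.pi : ℂ) * a / y)) * Complex.exp (-(b * ((Real.pi * y : ℝ) : ℂ))) := by
    rw [← Complex.exp_add]
    congr 1
    push_cast
    ring
  rw [h, mul_assoc]

theorem exp_split2 (a b : ℂ) (y : ℝ) :
    ((y ^ (-(3 / 2) : ℝ) : ℝ) : ℂ) * Complex.exp (-(Real.pi : ℂ) * a / y - (Real.pi : ℂ) * b * y)
      = (((y ^ (-(3 / 2) : ℝ) : ℝ) : ℂ) * Complex.exp (-((Real.pi : ℂ) * b * y)))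
        * Complex.exp (-(a * ((Real.pi / y : ℝ) : ℂ))) := by
  have h : Complex.exp (-(Real.pi : ℂ) * a / y - (Real.pi : ℂ) * b * y)
      = Complex.exp (-((Real.pi : ℂ) * b * y)) * Complex.exp (-(a * ((Real.pi / y : ℝ) : ℂ))) := by
    rw [← Complex.exp_add]
    congr 1
    push_cast
    ring
  rw [h]
  ring

theorem diff_b (a : ℂ) (ha : 0 < a.re) :
    DifferentiableOn ℂ (fun b : ℂ => ∫ y in Ioi (0 : ℝ), ((y ^ (-(3 / 2) : ℝ) : ℝ) : ℂ) *
      Complex.exp (-(Real.pi : ℂ) * a / y - (Real.pi : ℂ) * b * y)) {b : ℂ | 0 < b.re} := by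
  have h := diff_param (fun y : ℝ => ((y ^ (-(3 / 2) : ℝ) : ℝ) : ℂ) *
    Complex.exp (-((Real.pi : ℂ) * a / y))) (fun y => Real.pi * y)
    (fun y hy => mul_nonneg Real.pi_pos.le (le_of_lt hy)) (by fun_prop) (by fun_prop) ?_
  · refine h.congr ?_
    intro b _
    simp only [exp_split1]
  · intro c hc
    have h1 := real_int a.re c ha hc
    refine h1.congr_fun ?_ measurableSet_Ioi
    intro y hy
    have hy' : 0 < y := hy
    have h : Real.exp (-Real.pi * a.re / y - Real.pi * c * y)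
        = Real.exp (-((Real.pi : ℂ) * a / y)).re * Real.exp (-(c * (Real.pi * y))) := by
      rw [← Real.exp_add]
      congr 1
      simp only [Complex.neg_re, Complex.div_ofReal_re, Complex.re_ofReal_mul]
      ring
    simp only
    rw [norm_mul, Complex.norm_real, Real.norm_eq_abs, abs_of_nonneg (Real.rpow_nonneg hy'.le _),
      Complex.norm_exp, h, mul_assoc]

theorem diff_a (b : ℂ) (hb : 0 < b.re) :
    DifferentiableOn ℂ (fun a : ℂ => ∫ y in Ioi (0 : ℝ), ((y ^ (-(3 / 2) : ℝ) : ℝ) : ℂ) *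
      Complex.exp (-(Real.pi : ℂ) * a / y - (Real.pi : ℂ) * b * y)) {a : ℂ | 0 < a.re} := by
  have h := diff_param (fun y : ℝ => ((y ^ (-(3 / 2) : ℝ) : ℝ) : ℂ) *
    Complex.exp (-((Real.pi : ℂ) * b * y))) (fun y => Real.pi / y)
    (fun y hy => div_nonneg Real.pi_pos.le (le_of_lt hy)) (by fun_prop) (by fun_prop) ?_
  · refine h.congr ?_
    intro a _
    simp only [exp_split2]
  · intro c hc
    have h1 := real_int c b.re hc hb
    refine h1.congr_fun ?_ measurableSet_Ioi
    intro y hy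
    have hy' : 0 < y := hy
    have h : Real.exp (-Real.pi * c / y - Real.pi * b.re * y)
        = Real.exp (-((Real.pi : ℂ) * b * y)).re * Real.exp (-(c * (Real.pi / y))) := by
      rw [← Real.exp_add]
      congr 1
      simp only [Complex.neg_re, Complex.re_mul_ofReal, Complex.re_ofReal_mul]
      ring
    simp only
    rw [norm_mul, Complex.norm_real, Real.norm_eq_abs, abs_of_nonneg (Real.rpow_nonneg hy'.le _),
      Complex.norm_exp, h]
    ring

/-- real `a`, complex `b`. -/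
theorem id_rc (a : ℝ) (ha : 0 < a) (b : ℂ) (hb : 0 < b.re) :
    (a : ℂ) ^ (1 / 2 : ℂ) * ∫ y in Ioi (0 : ℝ), ((y ^ (-(3 / 2) : ℝ) : ℝ) : ℂ) *
      Complex.exp (-(Real.pi : ℂ) * a / y - (Real.pi : ℂ) * b * y)
    = Complex.exp (-2 * (Real.pi : ℂ) * ((a : ℂ) ^ (1 / 2 : ℂ) * b ^ (1 / 2 : ℂ))) := by
  refine ident (fun b : ℂ => (a : ℂ) ^ (1 / 2 : ℂ) * ∫ y in Ioi (0 : ℝ),
      ((y ^ (-(3 / 2) : ℝ) : ℝ) : ℂ) *
      Complex.exp (-(Real.pi : ℂ) * a / y - (Real.pi : ℂ) * b * y))
    (fun b : ℂ => Complex.exp (-2 * (Real.pi : ℂ) * ((a : ℂ) ^ (1 / 2 : ℂ) * b ^ (1 / 2 : ℂ))))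
    ?_ ?_ ?_ b hb
  · exact (diff_b a (by simpa using ha)).const_mul _
  · exact ((cpow_diff.const_mul _).const_mul _).cexp
  · intro x hx
    exact id_rr a x ha hx

theorem fti : FtiStatement := by
  intro a b ha hb
  refine ⟨int_ok a b ha hb, ?_⟩
  refine ident (fun a : ℂ => a ^ (1 / 2 : ℂ) * ∫ y in Ioi (0 : ℝ),
      ((y ^ (-(3 / 2) : ℝ) : ℝ) : ℂ) *
      Complex.exp (-(Real.pi : ℂ) * a / y - (Real.pi : ℂ) * b * y))
    (fun a : ℂ => Complex.exp (-2 * (Real.pi : ℂ) * (a ^ (1 / 2 : ℂ) * b ^ (1 / 2 : ℂ))))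
    ?_ ?_ ?_ a ha
  · exact cpow_diff.mul (diff_a b hb)
  · exact ((cpow_diff.mul_const _).const_mul _).cexp
  · intro x hx
    exact id_rc x hx b hb

end Pool.Agent.Lib.MP_3ee548_nt.RS.H32.Fti
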