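import Pool.Agent.Lib.MP_3ee548_nt.RS.Iface

/-! ROOT2: the terms of nonnegative index. -/

set_option autoImplicit false

namespace Pool.Agent.Lib.MP_3ee548_nt.RS.H32

open Pool.Agent.Lib.MP_3ee548_nt.RS

theorem root2 : Root2Statement := by
  intro N X m hN hX hNX hm
  set z : ℂ := (((1 / N : ℝ) : ℂ) + 2 * m * Complex.I) with hz
  have hzre : z.re = 1 / N := by
    simp [hz]
  have hzim : z.im = 2 * m := by
    simp [hz]
  have hhalf : (1 / 2 : ℂ) = (2⁻¹ : ℂ) := by norm_num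
  rw [hhalf]
  have hq : (z ^ (2⁻¹ : ℂ)).re = Real.sqrt ((‖z‖ + z.re) / 2) := Complex.cpow_inv_two_re z
  have hq' : (z ^ (2⁻¹ : ℂ)).im = Real.sqrt ((‖z‖ - z.re) / 2) :=
    Complex.cpow_inv_two_im_eq_sqrt (by rw [hzim]; linarith)
  have hnorm : 2 * m ≤ ‖z‖ := by
    have := Complex.abs_im_le_norm z
    rw [hzim] at this
    exact le_trans (le_abs_self _) this
  have h1N : 0 < 1 / N := by positivity
  have hqm : Real.sqrt m ≤ (z ^ (2⁻¹ : ℂ)).re := by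
    rw [hq]
    apply Real.sqrt_le_sqrt
    rw [hzre]
    linarith
  have hq0 : 0 ≤ (z ^ (2⁻¹ : ℂ)).im := by rw [hq']; exact Real.sqrt_nonneg _
  have hra_re : (ra N X).re = (X + N / X) / 2 := by
    simp [ra]
  have hra_im : (ra N X).im = -((X - N / X) / 2) := by
    simp [ra]
  have hNX2 : N / X ≤ X := by
    rw [div_le_iff₀ hX]; nlinarith
  have hNX0 : 0 ≤ N / X := by positivity
  rw [Complex.norm_exp]
  have hre : (-2 * (Real.pi : ℂ) * (ra N X * z ^ (2⁻¹ : ℂ))).re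
      = -2 * Real.pi * ((ra N X).re * (z ^ (2⁻¹ : ℂ)).re - (ra N X).im * (z ^ (2⁻¹ : ℂ)).im) := by
    have : (-2 * (Real.pi : ℂ) * (ra N X * z ^ (2⁻¹ : ℂ)))
        = ((-2 * Real.pi : ℝ) : ℂ) * (ra N X * z ^ (2⁻¹ : ℂ)) := by push_cast; ring
    rw [this, Complex.re_ofReal_mul, Complex.mul_re]
  rw [hre, Real.exp_le_exp, hra_re, hra_im]
  have hs := Real.sqrt_nonneg m
  have h1 : X / 2 * Real.sqrt m ≤ (X + N / X) / 2 * (z ^ (2⁻¹ : ℂ)).re := by
    apply mul_le_mul (by linarith) hqm hs (by positivity)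
  have h2 : 0 ≤ (X - N / X) / 2 * (z ^ (2⁻¹ : ℂ)).im :=
    mul_nonneg (by linarith) hq0
  have hpi := Real.pi_pos
  nlinarith [mul_le_mul_of_nonneg_left h1 hpi.le, mul_nonneg hpi.le h2]

end Pool.Agent.Lib.MP_3ee548_nt.RS.H32
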