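import Pool.Agent.Lib.MP_3ee548_nt.RS.Iface

/-! SUPB: the upper bound for single values of the sum over `I n`. -/

set_option autoImplicit false

namespace Pool.Agent.Lib.MP_3ee548_nt.RS.H32

open Pool.Agent.Lib.MP_3ee548_nt.RS Finset

theorem e_neg (x : ℝ) : e (-x) = (starRingEnd ℂ) (e x) := by
  unfold e
  rw [← Complex.exp_conj, map_mul, Complex.conj_ofReal, Complex.conj_I]
  congr 1
  push_cast
  ring

theorem norm_e (x : ℝ) : ‖e x‖ = 1 := by
  unfold e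
  exact Complex.norm_exp_ofReal_mul_I _

theorem norm_sum_e_neg (s : Finset ℕ) (f : ℕ → ℝ) :
    ‖∑ m ∈ s, e (-f m)‖ = ‖∑ m ∈ s, e (f m)‖ := by
  have : ∑ m ∈ s, e (-f m) = (starRingEnd ℂ) (∑ m ∈ s, e (f m)) := by
    rw [map_sum]; exact sum_congr rfl fun m _ => e_neg _
  rw [this, Complex.norm_conj]

theorem dk_smul (k : ℕ) (c : ℝ) (f : ℕ → ℝ) (n : ℕ) :
    Dk k (fun m => c * f m) n = c * Dk k f n := by
  unfold Dk
  have h := fwdDiff_iter_const_smul (h := (1 : ℕ)) c f k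
  have h2 : (c • f) = fun m => c * f m := rfl
  rw [h2] at h
  rw [h]
  rfl

/-- the sum over `I n` differs from the sum over `[n/2+1, n+1)` by at most one term. -/
theorem sum_I_le (n : ℕ) (f : ℕ → ℝ) :
    ‖∑ m ∈ I n, e (f m)‖ ≤ 1 + ‖∑ m ∈ Ico (n / 2 + 1) (n + 1), e (f m)‖ := by
  by_cases hn : n % 2 = 0 ∧ 1 ≤ n
  · have : I n = insert (n / 2) (Ico (n / 2 + 1) (n + 1)) := by
      ext m
      simp only [I, mem_filter, mem_Icc, mem_insert, mem_Ico]
      omega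
    rw [this, sum_insert (by simp)]
    refine (norm_add_le _ _).trans ?_
    rw [norm_e]
  · have : I n = Ico (n / 2 + 1) (n + 1) := by
      ext m
      simp only [I, mem_filter, mem_Icc, mem_Ico]
      omega
    rw [this]
    linarith

/-- the main quantity. -/
noncomputable def B (k : ℕ) (N T : ℝ) : ℝ :=
  N ^ (1 - (2 * (k : ℝ) - 1) / (2 * ((2 : ℝ) ^ k - 2))) * T ^ (1 / ((2 : ℝ) ^ k - 2))

theorem q_ge (k : ℕ) (hk : 3 ≤ k) : (8 : ℝ) ≤ (2 : ℝ) ^ k := by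
  calc (8 : ℝ) = (2 : ℝ) ^ 3 := by norm_num
    _ ≤ (2 : ℝ) ^ k := pow_le_pow_right₀ (by norm_num) hk

theorem B_mono (k : ℕ) (hk : 3 ≤ k) (N T T' : ℝ) (hN : 0 ≤ N) (hT : 0 ≤ T) (h : T ≤ T') :
    B k N T ≤ B k N T' := by
  unfold B
  have := q_ge k hk
  apply mul_le_mul_of_nonneg_left _ (Real.rpow_nonneg hN _)
  apply Real.rpow_le_rpow hT h
  apply div_nonneg (by norm_num); linarith

theorem one_le_B (k : ℕ) (hk : 3 ≤ k) (N T : ℝ) (hN : 1 ≤ N) (hT : N ^ (3 / 2 : ℝ) ≤ T) :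
    1 ≤ B k N T := by
  have hq := q_ge k hk
  have hN0 : 0 < N := by linarith
  refine le_trans ?_ (B_mono k hk N _ T hN0.le (Real.rpow_nonneg hN0.le _) hT)
  unfold B
  rw [← Real.rpow_mul hN0.le, ← Real.rpow_add hN0]
  apply Real.one_le_rpow hN
  have hk2 : (k : ℝ) ≤ (2 : ℝ) ^ k := by
    exact_mod_cast (Nat.lt_two_pow_self (n := k)).le
  have : 1 - (2 * (k : ℝ) - 1) / (2 * ((2 : ℝ) ^ k - 2)) + 3 / 2 * (1 / ((2 : ℝ) ^ k - 2))
      = ((2 : ℝ) ^ k - k) / ((2 : ℝ) ^ k - 2) := by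
    have h1 : (2 : ℝ) ^ k - 2 ≠ 0 := by linarith
    field_simp
    ring
  rw [this]
  apply div_nonneg <;> linarith

/-- the critical exponent. -/
noncomputable def sk (k : ℕ) : ℝ := (k : ℝ) - 5 / 2 + 4 / (2 : ℝ) ^ k

theorem B_step (j : ℕ) (hj : 3 ≤ j) (N T : ℝ) (hN : 1 ≤ N) (hT0 : 0 < T)
    (hT : T ≤ N ^ sk (j + 1)) : B j N T ≤ B (j + 1) N T := by
  have hq := q_ge j hj
  have hN0 : 0 < N := by linarith
  unfold B
  set p : ℝ := (2 : ℝ) ^ j with hp
  have hp2 : (2 : ℝ) ^ (j + 1) = 2 * p := by rw [pow_succ]; ring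
  rw [hp2]
  have hsk : sk (j + 1) = (j : ℝ) - 3 / 2 + 2 / p := by
    unfold sk; rw [hp2]; push_cast
    have : p ≠ 0 := by linarith
    field_simp
    ring
  rw [hsk] at hT
  have h1 : p - 2 ≠ 0 := by linarith
  have h2 : 2 * p - 2 ≠ 0 := by linarith
  have h3 : p ≠ 0 := by linarith
  have hd : 0 ≤ 1 / (p - 2) - 1 / (2 * p - 2) := by
    rw [sub_nonneg]
    apply one_div_le_one_div_of_le <;> linarith
  have key : T ^ (1 / (p - 2) - 1 / (2 * p - 2))
      ≤ N ^ (((j : ℝ) - 3 / 2 + 2 / p) * (1 / (p - 2) - 1 / (2 * p - 2))) := by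
    rw [Real.rpow_mul hN0.le]
    exact Real.rpow_le_rpow hT0.le hT hd
  have e1 : ((j : ℝ) - 3 / 2 + 2 / p) * (1 / (p - 2) - 1 / (2 * p - 2))
      = (1 - (2 * ((j + 1 : ℕ) : ℝ) - 1) / (2 * (2 * p - 2)))
        - (1 - (2 * (j : ℝ) - 1) / (2 * (p - 2))) := by
    have h4 : p - 1 ≠ 0 := by linarith
    have h5 : 2 * p - 2 = 2 * (p - 1) := by ring
    rw [h5]
    push_cast
    field_simp
    ring
  rw [e1, Real.rpow_sub hN0, Real.rpow_sub hT0] at key
  have hA : 0 < N ^ (1 - (2 * (j : ℝ) - 1) / (2 * (p - 2))) := Real.rpow_pos_of_pos hN0 _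
  have hB : 0 < T ^ (1 / (2 * p - 2)) := Real.rpow_pos_of_pos hT0 _
  rw [div_le_div_iff₀ hB hA] at key
  linarith [key, mul_comm (T ^ (1 / (p - 2))) (N ^ (1 - (2 * (j : ℝ) - 1) / (2 * (p - 2))))]

/-- the direct estimate, valid for `t ≥ n^(s_k)`. -/
theorem direct (hK : KderStatement) (hD : DsqStatement) (k : ℕ) (hk : 3 ≤ k) :
    ∃ C : ℝ, 0 < C ∧ ∀ (n : ℕ) (t : ℝ), 1 ≤ n → (n : ℝ) ^ (3 / 2 : ℝ) ≤ t →
      (n : ℝ) ^ sk k ≤ t → ‖∑ m ∈ I n, e (t * sqf m)‖ ≤ C * B k n t := by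
  obtain ⟨c, C, hc, hC, hDk⟩ := hD k (by omega)
  have hcC : c ≤ C := by
    have := hDk 1 le_rfl
    have h1 := this.1.trans this.2
    simpa using h1
  have hq := q_ge k hk
  set q : ℝ := (2 : ℝ) ^ k with hqd
  obtain ⟨C1, hC1, hK1⟩ := hK k (by omega) (C / c * q) (by
    have : 1 ≤ C / c := by rw [one_le_div hc]; exact hcC
    nlinarith)
  set κ : ℝ := 1 / (q - 2) with hκ
  have hκ0 : 0 < κ := by rw [hκ]; apply div_pos one_pos; linarith
  refine ⟨1 + C1 * (c ^ κ + c ^ (-κ)), by positivity, ?_⟩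
  intro n t hn ht hts
  have hN1 : (1 : ℝ) ≤ n := by exact_mod_cast hn
  have hN0 : (0 : ℝ) < n := by linarith
  have ht0 : 0 < t := lt_of_lt_of_le (Real.rpow_pos_of_pos hN0 _) ht
  set w : ℝ := t * (n : ℝ) ^ (1 / 2 - (k : ℝ)) with hw
  have hw0 : 0 < w := by positivity
  have hneg : 1 / 2 - (k : ℝ) ≤ 0 := by
    have : (3 : ℝ) ≤ k := by exact_mod_cast hk
    linarith
  have hb1 : (1 : ℝ) ≤ B k n t := one_le_B k hk n t hN1 ht
  -- the sum over the interval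
  have hsum : ‖∑ m ∈ Ico (n / 2 + 1) (n + 1), e (t * sqf m)‖
      ≤ C1 * ((((n + 1 : ℕ) : ℝ) - ((n / 2 + 1 : ℕ) : ℝ)) * (c * w) ^ κ
        + (((n + 1 : ℕ) : ℝ) - ((n / 2 + 1 : ℕ) : ℝ)) ^ (1 - (2 : ℝ) ^ (2 - (k : ℝ)))
          * (c * w) ^ (-κ)) := by
    have hkey := hK1 (fun m => (-1) ^ (k + 1) * t * sqf m) (n / 2 + 1) (n + 1) (c * w)
      (by omega) (by omega) (by positivity) (by
        intro m hm1 hm2
        have hm0 : 1 ≤ m := by omega
        have hmn : m ≤ n := by omega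
        have hm2n : n ≤ 2 * m := by omega
        have hmR : (0 : ℝ) < m := by exact_mod_cast hm0
        have hmnR : (m : ℝ) ≤ n := by exact_mod_cast hmn
        have hm2nR : (n : ℝ) ≤ 2 * m := by exact_mod_cast hm2n
        obtain ⟨d1, d2⟩ := hDk m hm0
        have e1 : Dk k (fun m => (-1) ^ (k + 1) * t * sqf m) m
            = t * ((-1) ^ (k + 1) * Dk k sqf m) := by
          rw [dk_smul]; ring
        rw [e1]
        have hlow : (n : ℝ) ^ (1 / 2 - (k : ℝ)) ≤ (m : ℝ) ^ (1 / 2 - (k : ℝ)) :=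
          Real.rpow_le_rpow_of_nonpos hmR hmnR hneg
        have hup : (m : ℝ) ^ (1 / 2 - (k : ℝ)) ≤ q * (n : ℝ) ^ (1 / 2 - (k : ℝ)) := by
          have h1 : (m : ℝ) ^ (1 / 2 - (k : ℝ)) ≤ ((n : ℝ) / 2) ^ (1 / 2 - (k : ℝ)) :=
            Real.rpow_le_rpow_of_nonpos (by positivity) (by linarith) hneg
          have h2 : ((n : ℝ) / 2) ^ (1 / 2 - (k : ℝ))
              = (2 : ℝ) ^ ((k : ℝ) - 1 / 2) * (n : ℝ) ^ (1 / 2 - (k : ℝ)) := by
            rw [div_eq_mul_inv, Real.mul_rpow hN0.le (by norm_num), Real.inv_rpow (by norm_num),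
              ← Real.rpow_neg (by norm_num), neg_sub, mul_comm]
          have h3 : (2 : ℝ) ^ ((k : ℝ) - 1 / 2) ≤ q := by
            rw [hqd, ← Real.rpow_natCast]
            apply Real.rpow_le_rpow_of_exponent_le (by norm_num)
            linarith
          rw [h2] at h1
          exact h1.trans (mul_le_mul_of_nonneg_right h3 (Real.rpow_nonneg hN0.le _))
        constructor
        · calc c * w = t * (c * (n : ℝ) ^ (1 / 2 - (k : ℝ))) := by rw [hw]; ring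
            _ ≤ t * (c * (m : ℝ) ^ (1 / 2 - (k : ℝ))) := by gcongr
            _ ≤ t * ((-1) ^ (k + 1) * Dk k sqf m) := by gcongr
        · calc t * ((-1) ^ (k + 1) * Dk k sqf m) ≤ t * (C * (m : ℝ) ^ (1 / 2 - (k : ℝ))) := by
                gcongr
            _ ≤ t * (C * (q * (n : ℝ) ^ (1 / 2 - (k : ℝ)))) := by gcongr
            _ = C / c * q * (c * w) := by rw [hw]; field_simp)
    have hsgn : ‖∑ m ∈ Ico (n / 2 + 1) (n + 1), e ((-1) ^ (k + 1) * t * sqf m)‖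
        = ‖∑ m ∈ Ico (n / 2 + 1) (n + 1), e (t * sqf m)‖ := by
      rcases Nat.even_or_odd (k + 1) with h | h
      · simp [h.neg_one_pow]
      · rw [h.neg_one_pow]
        have := norm_sum_e_neg (Ico (n / 2 + 1) (n + 1)) (fun m => t * sqf m)
        simpa using this
    rw [hsgn] at hkey
    exact hkey
  set L : ℝ := ((n + 1 : ℕ) : ℝ) - ((n / 2 + 1 : ℕ) : ℝ) with hL
  have hL0 : 0 ≤ L := by
    rw [hL, sub_nonneg]
    exact_mod_cast (by omega : n / 2 + 1 ≤ n + 1)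
  have hLn : L ≤ n := by
    rw [hL]; push_cast
    have : (0 : ℝ) ≤ ((n / 2 : ℕ) : ℝ) := Nat.cast_nonneg _
    linarith
  have h4q : (2 : ℝ) ^ (2 - (k : ℝ)) = 4 / q := by
    rw [Real.rpow_sub (by norm_num), Real.rpow_natCast, hqd]
    norm_num
  rw [h4q] at hsum
  have hex : 0 ≤ 1 - 4 / q := by
    rw [sub_nonneg, div_le_one (by linarith)]; linarith
  -- first term
  have hBw : B k n t = n * w ^ κ := by
    unfold B
    rw [hw, Real.mul_rpow ht0.le (Real.rpow_nonneg hN0.le _), ← Real.rpow_mul hN0.le]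
    rw [← hqd, ← hκ]
    have e1 : (n : ℝ) * (t ^ κ * (n : ℝ) ^ ((1 / 2 - (k : ℝ)) * κ))
        = ((n : ℝ) ^ (1 : ℝ) * (n : ℝ) ^ ((1 / 2 - (k : ℝ)) * κ)) * t ^ κ := by
      rw [Real.rpow_one]; ring
    rw [e1, ← Real.rpow_add hN0]
    congr 2
    rw [hκ]
    have : q - 2 ≠ 0 := by linarith
    field_simp
    ring
  have hfirst : L * (c * w) ^ κ ≤ c ^ κ * B k n t := by
    rw [Real.mul_rpow hc.le hw0.le, hBw]
    have : L * (c ^ κ * w ^ κ) = c ^ κ * (L * w ^ κ) := by ring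
    rw [this]
    gcongr
  have hwlow : (n : ℝ) ^ (-2 + 4 / q) ≤ w := by
    have : (n : ℝ) ^ (-2 + 4 / q) = (n : ℝ) ^ sk k * (n : ℝ) ^ (1 / 2 - (k : ℝ)) := by
      rw [← Real.rpow_add hN0]
      congr 1
      unfold sk; rw [← hqd]; ring
    rw [this, hw]
    gcongr
  have hsecond : L ^ (1 - 4 / q) * (c * w) ^ (-κ) ≤ c ^ (-κ) * B k n t := by
    rw [Real.mul_rpow hc.le hw0.le, hBw]
    have h1 : L ^ (1 - 4 / q) ≤ (n : ℝ) ^ (1 - 4 / q) := Real.rpow_le_rpow hL0 hLn hex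
    have h2 : (n : ℝ) ^ (1 - 4 / q) * w ^ (-κ) ≤ n * w ^ κ := by
      have h3 : (n : ℝ) ^ (-(4 / q)) ≤ w ^ (2 * κ) := by
        have h4 : ((n : ℝ) ^ (-2 + 4 / q)) ^ (2 * κ) ≤ w ^ (2 * κ) :=
          Real.rpow_le_rpow (Real.rpow_nonneg hN0.le _) hwlow (by positivity)
        rw [← Real.rpow_mul hN0.le] at h4
        have h5 : (-2 + 4 / q) * (2 * κ) = -(4 / q) := by
          rw [hκ]
          have h6 : q - 2 ≠ 0 := by linarith
          have h7 : q ≠ 0 := by linarith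
          field_simp
          ring
        rwa [h5] at h4
      have h6 : (n : ℝ) ^ (1 - 4 / q) = n * (n : ℝ) ^ (-(4 / q)) := by
        rw [sub_eq_add_neg, Real.rpow_add hN0, Real.rpow_one]
      have h7 : w ^ κ = w ^ (2 * κ) * w ^ (-κ) := by
        rw [← Real.rpow_add hw0]; congr 1; ring
      rw [h6, h7]
      have := mul_le_mul_of_nonneg_right h3 (Real.rpow_nonneg hw0.le (-κ))
      calc (n : ℝ) * (n : ℝ) ^ (-(4 / q)) * w ^ (-κ)
          = n * ((n : ℝ) ^ (-(4 / q)) * w ^ (-κ)) := by ring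
        _ ≤ n * (w ^ (2 * κ) * w ^ (-κ)) := by gcongr
    calc L ^ (1 - 4 / q) * (c ^ (-κ) * w ^ (-κ))
        = c ^ (-κ) * (L ^ (1 - 4 / q) * w ^ (-κ)) := by ring
      _ ≤ c ^ (-κ) * ((n : ℝ) ^ (1 - 4 / q) * w ^ (-κ)) := by gcongr
      _ ≤ c ^ (-κ) * (n * w ^ κ) := by gcongr
  calc ‖∑ m ∈ I n, e (t * sqf m)‖
      ≤ 1 + ‖∑ m ∈ Ico (n / 2 + 1) (n + 1), e (t * sqf m)‖ := sum_I_le n _
    _ ≤ B k n t + C1 * (c ^ κ * B k n t + c ^ (-κ) * B k n t) := by
        refine add_le_add hb1 (hsum.trans ?_)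
        gcongr
    _ = (1 + C1 * (c ^ κ + c ^ (-κ))) * B k n t := by ring

theorem supb (hK : KderStatement) (hD : DsqStatement) : SupbStatement := by
  intro k hk
  induction k, hk using Nat.le_induction with
  | base =>
    obtain ⟨C, hC, h⟩ := direct hK hD 3 le_rfl
    refine ⟨C, hC, ?_⟩
    intro n t T hn ht htT
    have hN1 : (1 : ℝ) ≤ n := by exact_mod_cast hn
    have hN0 : (0 : ℝ) < n := by linarith
    have ht0 : 0 < t := lt_of_lt_of_le (Real.rpow_pos_of_pos hN0 _) ht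
    have h1 : (n : ℝ) ^ sk 3 ≤ t := by
      refine le_trans ?_ ht
      apply Real.rpow_le_rpow_of_exponent_le hN1
      unfold sk; norm_num
    have h2 := h n t hn ht h1
    have h3 := B_mono 3 le_rfl n t T hN0.le ht0.le htT
    have h4 := h2.trans (mul_le_mul_of_nonneg_left h3 hC.le)
    unfold B at h4
    rw [← mul_assoc] at h4
    exact h4
  | succ j hj ih =>
    obtain ⟨C, hC, h⟩ := direct hK hD (j + 1) (by omega)
    obtain ⟨C', hC', h'⟩ := ih
    refine ⟨C + C', by positivity, ?_⟩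
    intro n t T hn ht htT
    have hN1 : (1 : ℝ) ≤ n := by exact_mod_cast hn
    have hN0 : (0 : ℝ) < n := by linarith
    have ht0 : 0 < t := lt_of_lt_of_le (Real.rpow_pos_of_pos hN0 _) ht
    have hB0 : 0 ≤ B (j + 1) n T := by
      unfold B
      exact mul_nonneg (Real.rpow_nonneg hN0.le _) (Real.rpow_nonneg (ht0.le.trans htT) _)
    have goal : ‖∑ m ∈ I n, e (t * sqf m)‖ ≤ (C + C') * B (j + 1) n T := by
      rcases le_total ((n : ℝ) ^ sk (j + 1)) t with h1 | h1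
      · have h2 := h n t hn ht h1
        have h3 := B_mono (j + 1) (by omega) n t T hN0.le ht0.le htT
        calc ‖∑ m ∈ I n, e (t * sqf m)‖ ≤ C * B (j + 1) n t := h2
          _ ≤ C * B (j + 1) n T := by gcongr
          _ ≤ (C + C') * B (j + 1) n T := by nlinarith
      · set T' : ℝ := min T ((n : ℝ) ^ sk (j + 1)) with hT'
        have htT' : t ≤ T' := le_min htT h1
        have hT'0 : 0 < T' := lt_of_lt_of_le ht0 htT'
        have h2 := h' n t T' hn ht htT'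
        have h3 : ‖∑ m ∈ I n, e (t * sqf m)‖ ≤ C' * B j n T' := by
          unfold B
          rw [← mul_assoc]
          exact h2
        have h4 : B j n T' ≤ B (j + 1) n T' := B_step j hj n T' hN1 hT'0 (min_le_right _ _)
        have h5 : B (j + 1) n T' ≤ B (j + 1) n T :=
          B_mono (j + 1) (by omega) n T' T hN0.le hT'0.le (min_le_left _ _)
        calc ‖∑ m ∈ I n, e (t * sqf m)‖ ≤ C' * B j n T' := h3
          _ ≤ C' * B (j + 1) n T := by
              apply mul_le_mul_of_nonneg_left (h4.trans h5) hC'.le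
          _ ≤ (C + C') * B (j + 1) n T := by nlinarith
    unfold B at goal
    rw [← mul_assoc] at goal
    exact goal

end Pool.Agent.Lib.MP_3ee548_nt.RS.H32
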