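import Pool.Agent.Lib.MP_3ee548_nt.RS.Iface

/-! YFACT and XFACT: facts on the two auxiliary functions. -/

set_option autoImplicit false

namespace Pool.Agent.Lib.MP_3ee548_nt.RS.H32

open Pool.Agent.Lib.MP_3ee548_nt.RS

theorem yy_basic (N mu : ℝ) (hN : 0 < N) (hmu : 0 < mu) :
    0 < YY N mu ∧ YY N mu ^ 2 - 1 / (N * YY N mu) ^ 2 = 4 * mu ∧
      2 * Real.sqrt mu ≤ YY N mu ∧
      YY N mu - 2 * Real.sqrt mu = 1 / (N ^ 2 * YY N mu ^ 2 * (YY N mu + 2 * Real.sqrt mu)) := by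
  set S := Real.sqrt (4 * mu ^ 2 + 1 / N ^ 2) with hS
  have hNN : 0 < 1 / N ^ 2 := by positivity
  have hS0 : 0 < S := Real.sqrt_pos.2 (by positivity)
  have hSS : S ^ 2 = 4 * mu ^ 2 + 1 / N ^ 2 := Real.sq_sqrt (by positivity)
  have hY : YY N mu = Real.sqrt (2 * mu + S) := rfl
  set Y := YY N mu with hYd
  have hY0 : 0 < Y := by rw [hY]; exact Real.sqrt_pos.2 (by positivity)
  have hYY : Y ^ 2 = 2 * mu + S := by rw [hY]; exact Real.sq_sqrt (by positivity)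
  have h1 : 1 / (N * Y) ^ 2 = S - 2 * mu := by
    rw [div_eq_iff (by positivity), mul_pow, hYY]
    have : (S - 2 * mu) * (N ^ 2 * (2 * mu + S)) = N ^ 2 * (S ^ 2 - 4 * mu ^ 2) := by ring
    rw [this, hSS]
    field_simp
    ring
  have h2 : Y ^ 2 - 1 / (N * Y) ^ 2 = 4 * mu := by rw [h1, hYY]; ring
  have hsq : Real.sqrt mu ^ 2 = mu := Real.sq_sqrt hmu.le
  have hs0 : 0 < Real.sqrt mu := Real.sqrt_pos.2 hmu
  have h3 : 2 * Real.sqrt mu ≤ Y := by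
    have : (2 * Real.sqrt mu) ^ 2 ≤ Y ^ 2 := by
      have h4 : 0 < 1 / (N * Y) ^ 2 := by positivity
      nlinarith
    exact le_of_sq_le_sq this hY0.le
  refine ⟨hY0, h2, h3, ?_⟩
  rw [eq_div_iff (by positivity)]
  have h5 : (Y - 2 * Real.sqrt mu) * (N ^ 2 * Y ^ 2 * (Y + 2 * Real.sqrt mu))
      = (N * Y) ^ 2 * (Y ^ 2 - 4 * Real.sqrt mu ^ 2) := by ring
  rw [h5, hsq]
  have h6 : Y ^ 2 - 4 * mu = 1 / (N * Y) ^ 2 := by linarith
  rw [h6]
  field_simp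

theorem yy_mono (N m1 m2 : ℝ) (_hN : 0 < N) (h1 : 0 < m1) (h : m1 ≤ m2) : YY N m1 ≤ YY N m2 := by
  unfold YY
  apply Real.sqrt_le_sqrt
  have h3 : m1 ^ 2 ≤ m2 ^ 2 := by nlinarith
  have h2 : Real.sqrt (4 * m1 ^ 2 + 1 / N ^ 2) ≤ Real.sqrt (4 * m2 ^ 2 + 1 / N ^ 2) :=
    Real.sqrt_le_sqrt (by linarith)
  linarith

theorem yfact : YfactStatement := by
  intro N hN
  refine ⟨fun mu hmu => ?_, fun m1 m2 h1 h => ⟨yy_mono N m1 m2 hN h1 h, ?_⟩⟩
  · obtain ⟨a, b, c, d⟩ := yy_basic N mu hN hmu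
    refine ⟨a, b, c, ?_⟩
    rw [d]
    have hs0 : 0 < Real.sqrt mu := Real.sqrt_pos.2 hmu
    have hsq : Real.sqrt mu ^ 2 = mu := Real.sq_sqrt hmu.le
    apply one_div_le_one_div_of_le (by positivity)
    have e1 : 16 * N ^ 2 * (mu * Real.sqrt mu)
        = N ^ 2 * (2 * Real.sqrt mu) ^ 2 * (4 * Real.sqrt mu) := by
      rw [← hsq]; rw [Real.sqrt_sq hs0.le]; ring
    rw [e1]
    gcongr
    linarith
  · obtain ⟨a, b, c, d⟩ := yy_basic N m1 hN h1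
    obtain ⟨a', b', c', d'⟩ := yy_basic N m2 hN (lt_of_lt_of_le h1 h)
    rw [d, d']
    have hs0 : 0 < Real.sqrt m1 := Real.sqrt_pos.2 h1
    have hs : Real.sqrt m1 ≤ Real.sqrt m2 := Real.sqrt_le_sqrt h
    have hm := yy_mono N m1 m2 hN h1 h
    apply one_div_le_one_div_of_le (by positivity)
    gcongr

theorem xfact : XfactStatement := by
  intro N t hN ht
  set S := Real.sqrt (t ^ 4 / 4 + N ^ 2) with hS
  have hS0 : 0 < S := Real.sqrt_pos.2 (by positivity)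
  have hSS : S ^ 2 = t ^ 4 / 4 + N ^ 2 := Real.sq_sqrt (by positivity)
  have hX : XX N t = Real.sqrt (t ^ 2 / 2 + S) := rfl
  set X := XX N t with hXd
  have hX0 : 0 < X := by rw [hX]; exact Real.sqrt_pos.2 (by positivity)
  have hXX : X ^ 2 = t ^ 2 / 2 + S := by rw [hX]; exact Real.sq_sqrt (by positivity)
  have hNS : N ≤ S := by
    apply Real.le_sqrt_of_sq_le
    have : 0 ≤ t ^ 4 / 4 := by positivity
    linarith
  have hts : t ^ 2 / 2 ≤ S := by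
    apply Real.le_sqrt_of_sq_le
    nlinarith
  have h1 : N ^ 2 / X ^ 2 = S - t ^ 2 / 2 := by
    rw [div_eq_iff (by positivity), hXX]
    nlinarith
  have h2 : X ^ 2 - N ^ 2 / X ^ 2 = t ^ 2 := by rw [h1, hXX]; ring
  have h3 : t ≤ X := by
    have : t ^ 2 ≤ X ^ 2 := by rw [hXX]; linarith
    exact le_of_sq_le_sq this hX0.le
  refine ⟨hX0, h2, h3, ?_, ?_, ?_⟩
  · rw [hXX]; nlinarith
  · have h4 : (X - t) * (X + t) * X ^ 2 = N ^ 2 := by
      have : (X ^ 2 - t ^ 2) * X ^ 2 = N ^ 2 := by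
        have h5 : X ^ 2 - t ^ 2 = N ^ 2 / X ^ 2 := by linarith
        rw [h5]; field_simp
      nlinarith
    have h6 : (X - t) * X ^ 3 ≤ (X - t) * (X + t) * X ^ 2 := by
      have : (X - t) * (X + t) * X ^ 2 - (X - t) * X ^ 3 = (X - t) * t * X ^ 2 := by ring
      have h7 : 0 ≤ (X - t) * t * X ^ 2 := by
        have := sub_nonneg.2 h3
        positivity
      linarith
    linarith
  · intro hNt
    have h4 : S ≤ 1.1181 * t ^ 2 := by
      apply Real.sqrt_le_iff.2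
      refine ⟨by positivity, ?_⟩
      have h5 : N ^ 2 ≤ (t ^ 2) ^ 2 := by nlinarith
      nlinarith [sq_nonneg (t ^ 2)]
    have h5 : X ^ 2 ≤ (1.28 * t) ^ 2 := by
      rw [hXX]; nlinarith [sq_nonneg t]
    exact le_of_sq_le_sq h5 (by positivity)

end Pool.Agent.Lib.MP_3ee548_nt.RS.H32
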